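import Pool.Agent.V7H20.PK.TwoK
import Pool.Agent.N455.PR.Alg
import Pool.Agent.N455.PR.OneQ
import Pool.Agent.N455.PR.Den
import Pool.Agent.Results.MP_a59382_lc.RankFive

/-!
# Unions of relations of the Hasse principle algebra and of thin relations: tools
-/

set_option autoImplicit false

namespace Pool.Agent.V7H87.UN

open Polynomial Filter Topology
open Pool.Agent.TH783.CE (Thin)
open Pool.Agent.TH766.HP (Rich)
open Pool.Agent.V7H20.PK

/-- affine changes of the parameter -/
theorem thin_pre {K : Type} [Field K] [CharZero K] {D : Set K} (hD : Thin D) (a b : K) (hb : b ≠ 0) :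
    Thin {s : K | a + b * s ∈ D} := by
  obtain ⟨E, hE, G, hG, hroot, hcov⟩ := hD
  set q : K[X] := C a + C b * X with hq
  set q' : K[X] := (X - C a) * C b⁻¹ with hq'
  have hinj : Function.Injective fun s : K => a + b * s := by
    intro s t hst
    have h1 : a + b * s = a + b * t := hst
    exact mul_left_cancel₀ hb (add_left_cancel h1)
  have hcomp : (compRingHom q').comp (compRingHom q) = RingHom.id K[X] := by
    apply Polynomial.ringHom_ext
    · intro c
      simp
    · simp only [RingHom.comp_apply, coe_compRingHom_apply, X_comp, RingHom.id_apply, hq, hq',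
        add_comp, mul_comp, C_comp]
      have h1 : C b * ((X - C a) * C b⁻¹) = (X - C a) * (C b * C b⁻¹) := by ring
      rw [h1, ← C_mul, mul_inv_cancel₀ hb, C_1]
      ring
  refine ⟨(fun s : K => a + b * s) ⁻¹' E, hE.preimage hinj.injOn, G.map (compRingHom q), hG.map _,
    fun g hg => ?_, fun t ht => ?_⟩
  · apply hroot (g.comp q')
    have h1 : (compRingHom q') ((G.map (compRingHom q)).eval g) =
        ((G.map (compRingHom q)).map (compRingHom q')).eval (g.comp q') := by
      rw [← coe_compRingHom_apply g q', Polynomial.eval_map_apply]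
    rw [hg, map_zero, Polynomial.map_map, hcomp, Polynomial.map_id] at h1
    exact h1.symm
  · rcases hcov _ ht with h | ⟨x, hx⟩
    · exact Or.inl h
    · right
      refine ⟨x, ?_⟩
      have h1 : (G.map (compRingHom q)).eval (C x) = (G.eval (C x)).comp q := by
        have h2 : (compRingHom q) (C x) = C x := by simp
        have h3 := Polynomial.eval_map_apply (f := compRingHom q) (p := G) (x := C x)
        rw [h2] at h3
        exact h3
      unfold evalEval
      rw [h1, eval_comp]
      have h4 : q.eval t = a + b * t := by simp [hq]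
      rw [h4]
      exact hx

variable {K : Type} [Field K] [NumberField K]

/-- on one line: relations of the algebra which imply the pole relation on this line -/
theorem pole_line (Q : Set ℕ) (hQ : Rich Q) (D : Set (K × K)) (hD : Alg2 K Q D) :
    ∃ B : Set ℤ, B.Finite ∧ ∀ n : ℤ, n ∉ B → (∀ x : K, (x, (n : K)) ∈ D → PoleRel K Q x n) →
      ∀ a1 b1 : ℤ, 0 < b1 → ∃ a b : ℤ, 0 < b ∧ b1 ∣ b ∧ b1 ∣ a - a1 ∧
        ∀ m : ℤ, b ∣ m - a → ((m : K), (n : K)) ∉ D := by
  obtain ⟨B, hB, hsl⟩ := det_slice Q D hD
  refine ⟨{n : ℤ | (n : K) ∈ B}, hB.preimage Int.cast_injective.injOn, fun n hn hDP a1 b1 hb1 => ?_⟩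
  have h2 := (hsl n hn).inter (ring_det Q)
  obtain ⟨a, b, hb, hbb, haa, hab⟩ := main Q hQ _ h2 (by
    rintro x ⟨hx1, hx2⟩
    apply Pool.Agent.TH766.HP.int_of_norm
    intro p hp
    by_cases hpQ : p ∈ Q
    · have : Fact p.Prime := ⟨hp⟩
      by_contra hlt
      push Not at hlt
      obtain ⟨v, hv⟩ := exists_place (K := K) p hp
      have h3 := hDP _ hx1 v ⟨p, hp, hpQ, hv⟩ (val_gt_one v hv x hlt)
      exact absurd h3 (not_lt.2 (val_int_le v n))
    · exact hx2 p hp hpQ) a1 b1 hb1
  refine ⟨a, b, hb, hbb, haa, fun m hm hmD => hab m hm ⟨?_, ?_⟩⟩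
  · change (((m : ℚ) : K), (n : K)) ∈ D
    have e : ((m : ℚ) : K) = (m : K) := by push_cast; rfl
    rw [e]
    exact hmD
  · intro p hp _
    have : Fact p.Prime := ⟨hp⟩
    exact padicNorm.of_int m

end Pool.Agent.V7H87.UN
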